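import Pool.Agent.Helper82.RD.Defs

/-!
# Project RD (MP_86d903_lc): module SUM
-/

set_option autoImplicit false

open Finset MP86d903

namespace Pool.Agent.Helper82.RD

variable {ι V : Type} [DecidableEq ι] [Fintype ι] [Fintype V] [DecidableEq V]
  {vs ng : ι → Finset V} {q : ℕ}

/-- permanent vectors are even on unions of atoms -/
theorem mSUM {A : Finset V} (hAP : AP vs A) {b : V → ZMod 2} (hb : b ∈ PM vs A) (K : Finset V)
    (hK : Disjoint K A) (hKa : ∀ x ∈ K, att vs A x ⊆ K) : ∑ i ∈ K, b i = 0 := by
  induction K using Finset.strongInduction with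
  | H K ih =>
    rcases K.eq_empty_or_nonempty with rfl | ⟨x, hx⟩
    · exact Finset.sum_empty
    · have hout : ∀ y ∈ K, y ∉ A := fun y hy => Finset.disjoint_left.1 hK hy
      have hxA := hout x hx
      have h1 : ∑ i ∈ att vs A x, b i = 0 := hb x hxA
      have h2 : att vs A x ⊆ K := hKa x hx
      have h3 : x ∈ att vs A x := hAP.mem x hxA
      have hlt : K \ att vs A x ⊂ K := by
        refine Finset.ssubset_iff_subset_ne.2 ⟨Finset.sdiff_subset, fun h => ?_⟩
        have h4 : x ∈ K \ att vs A x := by
          rw [h]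
          exact hx
        exact (Finset.mem_sdiff.1 h4).2 h3
      have h5 : ∑ i ∈ K \ att vs A x, b i = 0 := by
        refine ih _ hlt (Finset.disjoint_of_subset_left Finset.sdiff_subset hK) ?_
        intro y hy z hz
        have hy' := Finset.mem_sdiff.1 hy
        refine Finset.mem_sdiff.2 ⟨hKa y hy'.1 hz, fun hzx => hy'.2 ?_⟩
        have e1 := hAP.eqv y z (hout y hy'.1) hz
        have e2 := hAP.eqv x z hxA hzx
        rw [← e2, e1]
        exact hAP.mem y (hout y hy'.1)
      rw [← Finset.sum_sdiff h2, h5, h1, add_zero]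

end Pool.Agent.Helper82.RD
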